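import Mathlib

/-!
# Positive solutions of `x_{n+1} = x_{n-2} / (B x_n + x_{n-2})` that are not asymptotically periodic

We show that for every `B ≥ 2 ^ 100000` there is a positive solution which does not converge to
any periodic sequence.  In logarithmic scale `x n = B ^ (-u n)` the recurrence becomes
`u (n+3) = g (1 + u n - u (n+2))` with `g` within `log_B 2` of `max 0`.  The limiting
piecewise linear recurrence has a horseshoe built from a block of `27` steps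
(`s ↦ 13 - 3 s`) and a block of `46` steps (`s ↦ 102 - 30 s`).
-/

set_option autoImplicit false

open Filter Topology Set

namespace Pool.Agent.H50.RDE

/-- `g` is within `δ` above `max 0`. -/
def GBound (g : ℝ → ℝ) (δ : ℝ) : Prop := ∀ t, max 0 t ≤ g t ∧ g t ≤ max 0 t + δ

theorem stepP {g : ℝ → ℝ} {δ : ℝ} (hg : GBound g δ) {u0 u2 u3 A C T e0 e2 e3 : ℝ}
    (hu : u3 = g (1 + u0 - u2)) (h0 : |u0 - A| ≤ e0) (h2 : |u2 - C| ≤ e2)
    (ht : e0 + e2 ≤ 1 + A - C) (hT : 1 + A - C = T) (he : e0 + e2 + δ = e3) :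
    |u3 - T| ≤ e3 := by
  obtain ⟨h01, h02⟩ := abs_le.1 h0
  obtain ⟨h21, h22⟩ := abs_le.1 h2
  have hpos : 0 ≤ 1 + u0 - u2 := by linarith
  obtain ⟨hg1, hg2⟩ := hg (1 + u0 - u2)
  rw [max_eq_right hpos] at hg1 hg2
  rw [← hu] at hg1 hg2
  rw [abs_le]
  have hδ : 0 ≤ δ := by linarith
  constructor <;> linarith

theorem stepZ {g : ℝ → ℝ} {δ : ℝ} (hg : GBound g δ) {u0 u2 u3 A C e0 e2 : ℝ}
    (hu : u3 = g (1 + u0 - u2)) (h0 : |u0 - A| ≤ e0) (h2 : |u2 - C| ≤ e2)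
    (ht : 1 + A - C ≤ -(e0 + e2)) :
    |u3 - 0| ≤ 1 * δ := by
  obtain ⟨h01, h02⟩ := abs_le.1 h0
  obtain ⟨h21, h22⟩ := abs_le.1 h2
  have hneg : 1 + u0 - u2 ≤ 0 := by linarith
  obtain ⟨hg1, hg2⟩ := hg (1 + u0 - u2)
  rw [max_eq_left hneg] at hg1 hg2
  rw [← hu] at hg1 hg2
  rw [abs_le]
  constructor <;> linarith

theorem block0 {g : ℝ → ℝ} {δ : ℝ} (hδ : δ ≤ 1/100000)
    (hg : GBound g δ) {u : ℕ → ℝ} (hu : ∀ n, u (n+3) = g (1 + u n - u (n+2)))
    {s : ℝ} (hs1 : 323/100 ≤ s) (hs2 : s ≤ 327/100)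
    (h0 : |u 0| ≤ δ) (h1 : u 1 = s) (h2 : |u 2| ≤ δ) :
    (|u 27| ≤ δ) ∧ (|u 28 - (13 - 3*s)| ≤ 84*δ) ∧ (|u 29| ≤ δ) := by
  have e0 : |u 0 - (0:ℝ)| ≤ 1*δ := by simpa using h0
  have e1 : |u 1 - (1*s + (0):ℝ)| ≤ 0*δ := by rw [h1]; simp
  have e2 : |u 2 - (0:ℝ)| ≤ 1*δ := by simpa using h2
  have e3 : |u 3 - (1:ℝ)| ≤ 3*δ :=
    stepP hg (hu 0) e0 e2 (by linarith) (by ring) (by ring)
  have e4 : |u 4 - (1*s + (0):ℝ)| ≤ 4*δ :=
    stepP hg (hu 1) e1 e3 (by linarith) (by ring) (by ring)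
  have e5 : |u 5 - (0:ℝ)| ≤ 1*δ :=
    stepZ hg (hu 2) e2 e4 (by linarith)
  have e6 : |u 6 - (2:ℝ)| ≤ 5*δ :=
    stepP hg (hu 3) e3 e5 (by linarith) (by ring) (by ring)
  have e7 : |u 7 - (1*s + (-1):ℝ)| ≤ 10*δ :=
    stepP hg (hu 4) e4 e6 (by linarith) (by ring) (by ring)
  have e8 : |u 8 - (0:ℝ)| ≤ 1*δ :=
    stepZ hg (hu 5) e5 e7 (by linarith)
  have e9 : |u 9 - (3:ℝ)| ≤ 7*δ :=
    stepP hg (hu 6) e6 e8 (by linarith) (by ring) (by ring)
  have e10 : |u 10 - (1*s + (-3):ℝ)| ≤ 18*δ :=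
    stepP hg (hu 7) e7 e9 (by linarith) (by ring) (by ring)
  have e11 : |u 11 - (-1*s + (4):ℝ)| ≤ 20*δ :=
    stepP hg (hu 8) e8 e10 (by linarith) (by ring) (by ring)
  have e12 : |u 12 - (1*s + (0):ℝ)| ≤ 28*δ :=
    stepP hg (hu 9) e9 e11 (by linarith) (by ring) (by ring)
  have e13 : |u 13 - (0:ℝ)| ≤ 1*δ :=
    stepZ hg (hu 10) e10 e12 (by linarith)
  have e14 : |u 14 - (-1*s + (5):ℝ)| ≤ 22*δ :=
    stepP hg (hu 11) e11 e13 (by linarith) (by ring) (by ring)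
  have e15 : |u 15 - (2*s + (-4):ℝ)| ≤ 51*δ :=
    stepP hg (hu 12) e12 e14 (by linarith) (by ring) (by ring)
  have e16 : |u 16 - (0:ℝ)| ≤ 1*δ :=
    stepZ hg (hu 13) e13 e15 (by linarith)
  have e17 : |u 17 - (-1*s + (6):ℝ)| ≤ 24*δ :=
    stepP hg (hu 14) e14 e16 (by linarith) (by ring) (by ring)
  have e18 : |u 18 - (3*s + (-9):ℝ)| ≤ 76*δ :=
    stepP hg (hu 15) e15 e17 (by linarith) (by ring) (by ring)
  have e19 : |u 19 - (-3*s + (10):ℝ)| ≤ 78*δ :=
    stepP hg (hu 16) e16 e18 (by linarith) (by ring) (by ring)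
  have e20 : |u 20 - (2*s + (-3):ℝ)| ≤ 103*δ :=
    stepP hg (hu 17) e17 e19 (by linarith) (by ring) (by ring)
  have e21 : |u 21 - (0:ℝ)| ≤ 1*δ :=
    stepZ hg (hu 18) e18 e20 (by linarith)
  have e22 : |u 22 - (-3*s + (11):ℝ)| ≤ 80*δ :=
    stepP hg (hu 19) e19 e21 (by linarith) (by ring) (by ring)
  have e23 : |u 23 - (5*s + (-13):ℝ)| ≤ 184*δ :=
    stepP hg (hu 20) e20 e22 (by linarith) (by ring) (by ring)
  have e24 : |u 24 - (0:ℝ)| ≤ 1*δ :=
    stepZ hg (hu 21) e21 e23 (by linarith)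
  have e25 : |u 25 - (-3*s + (12):ℝ)| ≤ 82*δ :=
    stepP hg (hu 22) e22 e24 (by linarith) (by ring) (by ring)
  have e26 : |u 26 - (8*s + (-24):ℝ)| ≤ 267*δ :=
    stepP hg (hu 23) e23 e25 (by linarith) (by ring) (by ring)
  have e27 : |u 27 - (0:ℝ)| ≤ 1*δ :=
    stepZ hg (hu 24) e24 e26 (by linarith)
  have e28 : |u 28 - (-3*s + (13):ℝ)| ≤ 84*δ :=
    stepP hg (hu 25) e25 e27 (by linarith) (by ring) (by ring)
  have e29 : |u 29 - (0:ℝ)| ≤ 1*δ :=
    stepZ hg (hu 26) e26 e28 (by linarith)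
  refine ⟨by simpa using e27, ?_, by simpa using e29⟩
  have h : (-3*s + (13):ℝ) = 13 - 3*s := by ring
  rw [← h]; exact e28

theorem block1 {g : ℝ → ℝ} {δ : ℝ} (hδ : δ ≤ 1/100000)
    (hg : GBound g δ) {u : ℕ → ℝ} (hu : ∀ n, u (n+3) = g (1 + u n - u (n+2)))
    {s : ℝ} (hs1 : 3285/1000 ≤ s) (hs2 : s ≤ 3293/1000)
    (h0 : |u 0| ≤ δ) (h1 : u 1 = s) (h2 : |u 2| ≤ δ) :
    (|u 46| ≤ δ) ∧ (|u 47 - (102 - 30*s)| ≤ 1163*δ) ∧ (|u 48| ≤ δ) := by
  have e0 : |u 0 - (0:ℝ)| ≤ 1*δ := by simpa using h0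
  have e1 : |u 1 - (1*s + (0):ℝ)| ≤ 0*δ := by rw [h1]; simp
  have e2 : |u 2 - (0:ℝ)| ≤ 1*δ := by simpa using h2
  have e3 : |u 3 - (1:ℝ)| ≤ 3*δ :=
    stepP hg (hu 0) e0 e2 (by linarith) (by ring) (by ring)
  have e4 : |u 4 - (1*s + (0):ℝ)| ≤ 4*δ :=
    stepP hg (hu 1) e1 e3 (by linarith) (by ring) (by ring)
  have e5 : |u 5 - (0:ℝ)| ≤ 1*δ :=
    stepZ hg (hu 2) e2 e4 (by linarith)
  have e6 : |u 6 - (2:ℝ)| ≤ 5*δ :=
    stepP hg (hu 3) e3 e5 (by linarith) (by ring) (by ring)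
  have e7 : |u 7 - (1*s + (-1):ℝ)| ≤ 10*δ :=
    stepP hg (hu 4) e4 e6 (by linarith) (by ring) (by ring)
  have e8 : |u 8 - (0:ℝ)| ≤ 1*δ :=
    stepZ hg (hu 5) e5 e7 (by linarith)
  have e9 : |u 9 - (3:ℝ)| ≤ 7*δ :=
    stepP hg (hu 6) e6 e8 (by linarith) (by ring) (by ring)
  have e10 : |u 10 - (1*s + (-3):ℝ)| ≤ 18*δ :=
    stepP hg (hu 7) e7 e9 (by linarith) (by ring) (by ring)
  have e11 : |u 11 - (-1*s + (4):ℝ)| ≤ 20*δ :=
    stepP hg (hu 8) e8 e10 (by linarith) (by ring) (by ring)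
  have e12 : |u 12 - (1*s + (0):ℝ)| ≤ 28*δ :=
    stepP hg (hu 9) e9 e11 (by linarith) (by ring) (by ring)
  have e13 : |u 13 - (0:ℝ)| ≤ 1*δ :=
    stepZ hg (hu 10) e10 e12 (by linarith)
  have e14 : |u 14 - (-1*s + (5):ℝ)| ≤ 22*δ :=
    stepP hg (hu 11) e11 e13 (by linarith) (by ring) (by ring)
  have e15 : |u 15 - (2*s + (-4):ℝ)| ≤ 51*δ :=
    stepP hg (hu 12) e12 e14 (by linarith) (by ring) (by ring)
  have e16 : |u 16 - (0:ℝ)| ≤ 1*δ :=
    stepZ hg (hu 13) e13 e15 (by linarith)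
  have e17 : |u 17 - (-1*s + (6):ℝ)| ≤ 24*δ :=
    stepP hg (hu 14) e14 e16 (by linarith) (by ring) (by ring)
  have e18 : |u 18 - (3*s + (-9):ℝ)| ≤ 76*δ :=
    stepP hg (hu 15) e15 e17 (by linarith) (by ring) (by ring)
  have e19 : |u 19 - (-3*s + (10):ℝ)| ≤ 78*δ :=
    stepP hg (hu 16) e16 e18 (by linarith) (by ring) (by ring)
  have e20 : |u 20 - (2*s + (-3):ℝ)| ≤ 103*δ :=
    stepP hg (hu 17) e17 e19 (by linarith) (by ring) (by ring)
  have e21 : |u 21 - (0:ℝ)| ≤ 1*δ :=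
    stepZ hg (hu 18) e18 e20 (by linarith)
  have e22 : |u 22 - (-3*s + (11):ℝ)| ≤ 80*δ :=
    stepP hg (hu 19) e19 e21 (by linarith) (by ring) (by ring)
  have e23 : |u 23 - (5*s + (-13):ℝ)| ≤ 184*δ :=
    stepP hg (hu 20) e20 e22 (by linarith) (by ring) (by ring)
  have e24 : |u 24 - (0:ℝ)| ≤ 1*δ :=
    stepZ hg (hu 21) e21 e23 (by linarith)
  have e25 : |u 25 - (-3*s + (12):ℝ)| ≤ 82*δ :=
    stepP hg (hu 22) e22 e24 (by linarith) (by ring) (by ring)
  have e26 : |u 26 - (8*s + (-24):ℝ)| ≤ 267*δ :=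
    stepP hg (hu 23) e23 e25 (by linarith) (by ring) (by ring)
  have e27 : |u 27 - (0:ℝ)| ≤ 1*δ :=
    stepZ hg (hu 24) e24 e26 (by linarith)
  have e28 : |u 28 - (-3*s + (13):ℝ)| ≤ 84*δ :=
    stepP hg (hu 25) e25 e27 (by linarith) (by ring) (by ring)
  have e29 : |u 29 - (11*s + (-36):ℝ)| ≤ 352*δ :=
    stepP hg (hu 26) e26 e28 (by linarith) (by ring) (by ring)
  have e30 : |u 30 - (-11*s + (37):ℝ)| ≤ 354*δ :=
    stepP hg (hu 27) e27 e29 (by linarith) (by ring) (by ring)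
  have e31 : |u 31 - (8*s + (-23):ℝ)| ≤ 439*δ :=
    stepP hg (hu 28) e28 e30 (by linarith) (by ring) (by ring)
  have e32 : |u 32 - (0:ℝ)| ≤ 1*δ :=
    stepZ hg (hu 29) e29 e31 (by linarith)
  have e33 : |u 33 - (-11*s + (38):ℝ)| ≤ 356*δ :=
    stepP hg (hu 30) e30 e32 (by linarith) (by ring) (by ring)
  have e34 : |u 34 - (19*s + (-60):ℝ)| ≤ 796*δ :=
    stepP hg (hu 31) e31 e33 (by linarith) (by ring) (by ring)
  have e35 : |u 35 - (0:ℝ)| ≤ 1*δ :=
    stepZ hg (hu 32) e32 e34 (by linarith)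
  have e36 : |u 36 - (-11*s + (39):ℝ)| ≤ 358*δ :=
    stepP hg (hu 33) e33 e35 (by linarith) (by ring) (by ring)
  have e37 : |u 37 - (30*s + (-98):ℝ)| ≤ 1155*δ :=
    stepP hg (hu 34) e34 e36 (by linarith) (by ring) (by ring)
  have e38 : |u 38 - (-30*s + (99):ℝ)| ≤ 1157*δ :=
    stepP hg (hu 35) e35 e37 (by linarith) (by ring) (by ring)
  have e39 : |u 39 - (19*s + (-59):ℝ)| ≤ 1516*δ :=
    stepP hg (hu 36) e36 e38 (by linarith) (by ring) (by ring)
  have e40 : |u 40 - (0:ℝ)| ≤ 1*δ :=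
    stepZ hg (hu 37) e37 e39 (by linarith)
  have e41 : |u 41 - (-30*s + (100):ℝ)| ≤ 1159*δ :=
    stepP hg (hu 38) e38 e40 (by linarith) (by ring) (by ring)
  have e42 : |u 42 - (49*s + (-158):ℝ)| ≤ 2676*δ :=
    stepP hg (hu 39) e39 e41 (by linarith) (by ring) (by ring)
  have e43 : |u 43 - (0:ℝ)| ≤ 1*δ :=
    stepZ hg (hu 40) e40 e42 (by linarith)
  have e44 : |u 44 - (-30*s + (101):ℝ)| ≤ 1161*δ :=
    stepP hg (hu 41) e41 e43 (by linarith) (by ring) (by ring)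
  have e45 : |u 45 - (79*s + (-258):ℝ)| ≤ 3838*δ :=
    stepP hg (hu 42) e42 e44 (by linarith) (by ring) (by ring)
  have e46 : |u 46 - (0:ℝ)| ≤ 1*δ :=
    stepZ hg (hu 43) e43 e45 (by linarith)
  have e47 : |u 47 - (-30*s + (102):ℝ)| ≤ 1163*δ :=
    stepP hg (hu 44) e44 e46 (by linarith) (by ring) (by ring)
  have e48 : |u 48 - (0:ℝ)| ≤ 1*δ :=
    stepZ hg (hu 45) e45 e47 (by linarith)
  refine ⟨by simpa using e46, ?_, by simpa using e48⟩
  have h : (-30*s + (102):ℝ) = 102 - 30*s := by ring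
  rw [← h]; exact e47

/-- Crossing: the values at the two end points lie on different sides of `[lo, hi]`. -/
def Cross (f : ℝ → ℝ) (a b lo hi : ℝ) : Prop :=
  (f a ≤ lo ∧ hi ≤ f b) ∨ (hi ≤ f a ∧ f b ≤ lo)

theorem exists_crossing {f : ℝ → ℝ} (hf : Continuous f) {a b lo hi : ℝ} (hab : a ≤ b)
    (hlh : lo < hi) (ha : f a ≤ lo) (hb : hi ≤ f b) :
    ∃ a' b', a ≤ a' ∧ a' ≤ b' ∧ b' ≤ b ∧ f a' = lo ∧ f b' = hi ∧
      ∀ s ∈ Icc a' b', f s ∈ Icc lo hi := by
  have hS1c : IsCompact (Icc a b ∩ {s | hi ≤ f s}) :=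
    isCompact_Icc.inter_right (isClosed_le continuous_const hf)
  obtain ⟨b', hb'mem, hb'least⟩ := hS1c.exists_isLeast ⟨b, ⟨hab, le_rfl⟩, hb⟩
  obtain ⟨⟨hab', hb'b⟩, hfb'⟩ := hb'mem
  have hfb : f b' = hi := by
    have hivt := intermediate_value_Icc hab' hf.continuousOn
    obtain ⟨c, ⟨hc1, hc2⟩, hc3⟩ := hivt ⟨le_trans ha hlh.le, hfb'⟩
    have : b' ≤ c := hb'least ⟨⟨hc1, le_trans hc2 hb'b⟩, hc3.ge⟩
    have : c = b' := le_antisymm hc2 this
    rw [← this, hc3]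
  have hS2c : IsCompact (Icc a b' ∩ {s | f s ≤ lo}) :=
    isCompact_Icc.inter_right (isClosed_le hf continuous_const)
  obtain ⟨a', ha'mem, ha'gr⟩ := hS2c.exists_isGreatest ⟨a, ⟨le_rfl, hab'⟩, ha⟩
  obtain ⟨⟨haa', ha'b'⟩, hfa'⟩ := ha'mem
  have hfa : f a' = lo := by
    have hivt := intermediate_value_Icc ha'b' hf.continuousOn
    have hmem : lo ∈ Icc (f a') (f b') := ⟨hfa', by rw [hfb]; exact hlh.le⟩
    obtain ⟨c, ⟨hc1, hc2⟩, hc3⟩ := hivt hmem
    have : c ≤ a' := ha'gr ⟨⟨le_trans haa' hc1, hc2⟩, hc3.le⟩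
    have : c = a' := le_antisymm this hc1
    rw [← this, hc3]
  refine ⟨a', b', haa', ha'b', hb'b, hfa, hfb, ?_⟩
  rintro s ⟨hs1, hs2⟩
  constructor
  · by_contra hlt
    have hlt' : f s < lo := not_le.1 hlt
    have : s ≤ a' := ha'gr ⟨⟨le_trans haa' hs1, hs2⟩, hlt'.le⟩
    have hsa : s = a' := le_antisymm this hs1
    rw [hsa, hfa] at hlt'
    exact lt_irrefl _ hlt'
  · by_contra hlt
    have hlt' : hi < f s := not_le.1 hlt
    have : b' ≤ s := hb'least ⟨⟨le_trans haa' hs1, le_trans hs2 hb'b⟩, hlt'.le⟩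
    have hsb : s = b' := le_antisymm hs2 this
    rw [hsb, hfb] at hlt'
    exact lt_irrefl _ hlt'

theorem Cross.exists_sub {f : ℝ → ℝ} (hf : Continuous f) {a b lo hi : ℝ} (hab : a ≤ b)
    (hlh : lo < hi) (h : Cross f a b lo hi) :
    ∃ a' b', a ≤ a' ∧ a' ≤ b' ∧ b' ≤ b ∧
      ((f a' = lo ∧ f b' = hi) ∨ (f a' = hi ∧ f b' = lo)) ∧
      ∀ s ∈ Icc a' b', f s ∈ Icc lo hi := by
  rcases h with ⟨h1, h2⟩ | ⟨h1, h2⟩
  · obtain ⟨a', b', p1, p2, p3, p4, p5, p6⟩ := exists_crossing hf hab hlh h1 h2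
    exact ⟨a', b', p1, p2, p3, Or.inl ⟨p4, p5⟩, p6⟩
  · obtain ⟨a', b', p1, p2, p3, p4, p5, p6⟩ :=
      exists_crossing (f := fun s => - f s) hf.neg hab (neg_lt_neg hlh) (neg_le_neg h1)
        (neg_le_neg h2)
    refine ⟨a', b', p1, p2, p3, Or.inr ⟨neg_injective p4, neg_injective p5⟩, ?_⟩
    intro s hs
    obtain ⟨q1, q2⟩ := p6 s hs
    exact ⟨neg_le_neg_iff.1 q2, neg_le_neg_iff.1 q1⟩

/-- Length of the two blocks. -/
def len : Bool → ℕ
  | false => 27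
  | true => 46

/-- Left end point of the two base intervals. -/
noncomputable def lo : Bool → ℝ
  | false => 323/100
  | true => 3285/1000

/-- Right end point of the two base intervals. -/
noncomputable def hi : Bool → ℝ
  | false => 327/100
  | true => 3293/1000

/-- The starting time of the `i`-th block of the itinerary `w`. -/
def tau (w : ℕ → Bool) : ℕ → ℕ
  | 0 => 0
  | i + 1 => tau w i + len (w i)

theorem block {g : ℝ → ℝ} {δ : ℝ} (hδ : δ ≤ 1/100000)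
    (hg : GBound g δ) {u : ℕ → ℝ} (hu : ∀ n, u (n+3) = g (1 + u n - u (n+2)))
    (j : Bool) (hs : u 1 ∈ Icc (lo j) (hi j)) (h0 : |u 0| ≤ δ) (h2 : |u 2| ≤ δ) :
    |u (len j)| ≤ δ ∧ |u (len j + 2)| ≤ δ ∧
      (u 1 = lo j → 3293/1000 ≤ u (len j + 1)) ∧ (u 1 = hi j → u (len j + 1) ≤ 323/100) := by
  cases j with
  | false =>
    obtain ⟨b1, b2, b3⟩ := block0 hδ hg hu hs.1 hs.2 h0 rfl h2
    obtain ⟨c1, c2⟩ := abs_le.1 b2
    refine ⟨b1, b3, ?_, ?_⟩
    · intro h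
      show 3293/1000 ≤ u 28
      have h' : u 1 = 323/100 := h
      rw [h'] at c1
      linarith
    · intro h
      show u 28 ≤ 323/100
      have h' : u 1 = 327/100 := h
      rw [h'] at c2
      linarith
  | true =>
    obtain ⟨b1, b2, b3⟩ := block1 hδ hg hu hs.1 hs.2 h0 rfl h2
    obtain ⟨c1, c2⟩ := abs_le.1 b2
    refine ⟨b1, b3, ?_, ?_⟩
    · intro h
      show 3293/1000 ≤ u 47
      have h' : u 1 = 3285/1000 := h
      rw [h'] at c1
      linarith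
    · intro h
      show u 47 ≤ 323/100
      have h' : u 1 = 3293/1000 := h
      rw [h'] at c2
      linarith

/-- The condition on the parameter interval `p.1 ≤ s ≤ p.2` at the start of the `i`-th block. -/
def Good (U : ℝ → ℕ → ℝ) (δ : ℝ) (w : ℕ → Bool) (i : ℕ) (p : ℝ × ℝ) : Prop :=
  p.1 ≤ p.2 ∧ (∀ s ∈ Icc p.1 p.2, |U s (tau w i)| ≤ δ ∧ |U s (tau w i + 2)| ≤ δ) ∧
    Cross (fun s => U s (tau w i + 1)) p.1 p.2 (323/100) (3293/1000)

theorem good_step {g : ℝ → ℝ} {δ : ℝ} (hδ : δ ≤ 1/100000)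
    (hg : GBound g δ) {U : ℝ → ℕ → ℝ} (hc : ∀ n, Continuous fun s => U s n)
    (hu : ∀ s n, U s (n+3) = g (1 + U s n - U s (n+2))) (w : ℕ → Bool) (i : ℕ) (p : ℝ × ℝ)
    (hp : Good U δ w i p) :
    ∃ q : ℝ × ℝ, Good U δ w (i+1) q ∧ p.1 ≤ q.1 ∧ q.2 ≤ p.2 ∧
      ∀ s ∈ Icc q.1 q.2, U s (tau w i + 1) ∈ Icc (lo (w i)) (hi (w i)) := by
  obtain ⟨hp1, hp2, hp3⟩ := hp
  have hlh : lo (w i) < hi (w i) := by
    cases w i <;> norm_num [lo, hi]
  have hl : (323/100 : ℝ) ≤ lo (w i) := by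
    cases w i <;> norm_num [lo]
  have hh : hi (w i) ≤ (3293/1000 : ℝ) := by
    cases w i <;> norm_num [hi]
  have hcr : Cross (fun s => U s (tau w i + 1)) p.1 p.2 (lo (w i)) (hi (w i)) := by
    rcases hp3 with ⟨h1, h2⟩ | ⟨h1, h2⟩
    · exact Or.inl ⟨le_trans h1 hl, le_trans hh h2⟩
    · exact Or.inr ⟨le_trans hh h1, le_trans h2 hl⟩
  obtain ⟨a', b', q1, q2, q3, q4, q5⟩ := hcr.exists_sub (hc _) hp1 hlh
  have key : ∀ s ∈ Icc a' b', |U s (tau w i + len (w i))| ≤ δ ∧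
      |U s (tau w i + (len (w i) + 2))| ≤ δ ∧
      (U s (tau w i + 1) = lo (w i) → 3293/1000 ≤ U s (tau w i + (len (w i) + 1))) ∧
      (U s (tau w i + 1) = hi (w i) → U s (tau w i + (len (w i) + 1)) ≤ 323/100) := by
    intro s hs
    have hs' : s ∈ Icc p.1 p.2 := ⟨le_trans q1 hs.1, le_trans hs.2 q3⟩
    have := block (u := fun n => U s (tau w i + n)) hδ hg
      (fun n => hu s (tau w i + n)) (w i) (q5 s hs) (hp2 s hs').1 (hp2 s hs').2
    exact this
  refine ⟨(a', b'), ⟨q2, ?_, ?_⟩, q1, q3, q5⟩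
  · intro s hs
    exact ⟨(key s hs).1, (key s hs).2.1⟩
  · have ka := key a' ⟨le_rfl, q2⟩
    have kb := key b' ⟨q2, le_rfl⟩
    rcases q4 with ⟨h1, h2⟩ | ⟨h1, h2⟩
    · exact Or.inr ⟨ka.2.2.1 h1, kb.2.2.2 h2⟩
    · exact Or.inl ⟨ka.2.2.2 h1, kb.2.2.1 h2⟩

/-- Every itinerary is realised. -/
theorem exists_itinerary {g : ℝ → ℝ} {δ : ℝ} (hδ0 : 0 ≤ δ) (hδ : δ ≤ 1/100000)
    (hg : GBound g δ) {U : ℝ → ℕ → ℝ} (hc : ∀ n, Continuous fun s => U s n)
    (hu : ∀ s n, U s (n+3) = g (1 + U s n - U s (n+2)))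
    (h0 : ∀ s, U s 0 = 0) (h1 : ∀ s, U s 1 = s) (h2 : ∀ s, U s 2 = 0) (w : ℕ → Bool) :
    ∃ s, ∀ i, U s (tau w i + 1) ∈ Icc (lo (w i)) (hi (w i)) := by
  have hstart : Good U δ w 0 (323/100, 3293/1000) := by
    refine ⟨by norm_num, ?_, Or.inl ⟨?_, ?_⟩⟩
    · intro s _
      simp only [tau, h0, h2, zero_add, abs_zero]
      exact ⟨hδ0, hδ0⟩
    · simp only [tau, zero_add, h1]; exact le_rfl
    · simp only [tau, zero_add, h1]; exact le_rfl
  choose! nxt hn1 hn2 hn3 hn4 using good_step hδ hg hc hu w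
  let F : ℕ → ℝ × ℝ := fun i => Nat.rec (323/100, 3293/1000) (fun i p => nxt i p) i
  have hF0 : F 0 = (323/100, 3293/1000) := rfl
  have hFs : ∀ i, F (i+1) = nxt i (F i) := fun i => rfl
  have hgood : ∀ i, Good U δ w i (F i) := by
    intro i
    induction i with
    | zero => rw [hF0]; exact hstart
    | succ i ih => rw [hFs]; exact hn1 i (F i) ih
  have hanti : Antitone fun n => Icc (F n).1 (F n).2 := by
    apply antitone_nat_of_succ_le
    intro n
    rw [hFs]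
    exact Icc_subset_Icc (hn2 n (F n) (hgood n)) (hn3 n (F n) (hgood n))
  have hmem := ciSup_mem_iInter_Icc_of_antitone_Icc hanti (fun n => (hgood n).1)
  refine ⟨⨆ n, (F n).1, fun i => ?_⟩
  have hi' := Set.mem_iInter.1 hmem (i+1)
  rw [hFs] at hi'
  exact hn4 i (F i) (hgood i) _ hi'

/-- The itinerary: a block of the second kind exactly at the perfect squares. -/
def itin (i : ℕ) : Bool := decide (Nat.sqrt i * Nat.sqrt i = i)

theorem itin_pattern (K N : ℕ) : ∃ i, N ≤ i ∧ (∀ l < K, itin (i + l) = false) ∧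
    itin (i + K) = true := by
  -- use the square of `m = K + N + 2`
  set m := K + N + 2 with hm
  have hmm : K + N ≤ m * m := by nlinarith
  refine ⟨m * m - K, ?_, ?_, ?_⟩
  · have : m * m ≥ K + N := hmm
    omega
  · intro l hl
    have hKm : K ≤ m * m := by omega
    simp only [itin, decide_eq_false_iff_not]
    intro hsq
    set r := Nat.sqrt (m * m - K + l) with hr
    have h1 : r * r < m * m := by rw [hsq]; omega
    have h2 : r < m := by
      by_contra hcon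
      have : m * m ≤ r * r := Nat.mul_le_mul (not_lt.1 hcon) (not_lt.1 hcon)
      omega
    have h3 : r * r ≤ (m - 1) * (m - 1) := Nat.mul_le_mul (by omega) (by omega)
    have h4 : (m - 1) * (m - 1) + 2 * m = m * m + 1 := by
      have : 1 ≤ m := by omega
      obtain ⟨m', hm'⟩ : ∃ m', m = m' + 1 := ⟨m - 1, by omega⟩
      rw [hm']
      simp only [Nat.add_sub_cancel]
      ring
    omega
  · have hKm : K ≤ m * m := by omega
    have : m * m - K + K = m * m := by omega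
    rw [this]
    simp [itin, Nat.sqrt_eq]

theorem tau_const {w : ℕ → Bool} {i K : ℕ} (h : ∀ l < K, w (i + l) = false) :
    tau w (i + K) = tau w i + 27 * K := by
  induction K with
  | zero => simp
  | succ K ih =>
    have h1 : ∀ l < K, w (i + l) = false := fun l hl => h l (by omega)
    have h2 : w (i + K) = false := h K (by omega)
    show tau w (i + K) + len (w (i + K)) = _
    rw [ih h1, h2]
    simp only [len]
    ring

theorem le_tau (w : ℕ → Bool) (i : ℕ) : i ≤ tau w i := by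
  induction i with
  | zero => simp
  | succ i ih =>
    show i + 1 ≤ tau w i + len (w i)
    have : 1 ≤ len (w i) := by cases w i <;> simp [len]
    omega

/-- The logarithmic form of the recurrence. -/
noncomputable def gB (B : ℝ) (t : ℝ) : ℝ := Real.logb B (1 + B ^ t)

theorem gB_bound {B : ℝ} (hB : 1 < B) : GBound (gB B) (Real.logb B 2) := by
  intro t
  have hB0 : 0 < B := by linarith
  have hpos : 0 < B ^ t := Real.rpow_pos_of_pos hB0 t
  constructor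
  · unfold gB
    apply max_le
    · apply Real.logb_nonneg hB; linarith
    · rw [Real.le_logb_iff_rpow_le hB (by linarith)]
      linarith
  · unfold gB
    have h2 : 0 < (2 : ℝ) := by norm_num
    have hmax : B ^ (max 0 t) * 2 = B ^ (max 0 t + Real.logb B 2) := by
      rw [Real.rpow_add hB0, Real.rpow_logb hB0 (by linarith) h2]
    rw [Real.logb_le_iff_le_rpow hB (by linarith), ← hmax]
    have h1 : (1:ℝ) ≤ B ^ (max 0 t) := Real.one_le_rpow hB.le (le_max_left _ _)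
    have h3 : B ^ t ≤ B ^ (max 0 t) := Real.rpow_le_rpow_of_exponent_le hB.le (le_max_right _ _)
    linarith

theorem gB_continuous {B : ℝ} (hB : 1 < B) : Continuous (gB B) := by
  have hB0 : 0 < B := by linarith
  unfold gB Real.logb
  apply Continuous.div_const
  apply Continuous.log
  · exact continuous_const.add (Real.continuous_const_rpow hB0.ne')
  · intro t
    have : 0 < B ^ t := Real.rpow_pos_of_pos hB0 t
    positivity

/-- The family of solutions in logarithmic form with initial values `0, s, 0`. -/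
noncomputable def Useq (g : ℝ → ℝ) (s : ℝ) : ℕ → ℝ
  | 0 => 0
  | 1 => s
  | 2 => 0
  | n + 3 => g (1 + Useq g s n - Useq g s (n+2))

theorem Useq_rec (g : ℝ → ℝ) (s : ℝ) (n : ℕ) :
    Useq g s (n+3) = g (1 + Useq g s n - Useq g s (n+2)) := by
  rw [Useq]

theorem Useq_continuous {g : ℝ → ℝ} (hg : Continuous g) (n : ℕ) :
    Continuous fun s => Useq g s n := by
  induction n using Nat.strong_induction_on with
  | _ n ih =>
    match n, ih with
    | 0, _ => simp only [Useq]; exact continuous_const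
    | 1, _ => simp only [Useq]; exact continuous_id
    | 2, _ => simp only [Useq]; exact continuous_const
    | n + 3, ih =>
      simp only [Useq_rec]
      exact hg.comp ((continuous_const.add (ih n (by omega))).sub (ih (n+2) (by omega)))

theorem logb_two_le {B : ℝ} (hB : (2:ℝ) ^ (100000:ℕ) ≤ B) : Real.logb B 2 ≤ 1/100000 := by
  have h2 : (1:ℝ) < 2 ^ (100000:ℕ) := one_lt_pow₀ (by norm_num) (by norm_num)
  have hB1 : 1 < B := lt_of_lt_of_le h2 hB
  rw [Real.logb_le_iff_le_rpow hB1 (by norm_num)]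
  have h3 : ((2:ℝ) ^ (100000:ℕ)) ^ ((1:ℝ)/100000) = 2 := by
    rw [← Real.rpow_natCast, ← Real.rpow_mul (by norm_num)]
    norm_num
  calc (2:ℝ) = ((2:ℝ) ^ (100000:ℕ)) ^ ((1:ℝ)/100000) := h3.symm
    _ ≤ B ^ ((1:ℝ)/100000) := Real.rpow_le_rpow (by positivity) hB (by norm_num)

/-- **Main theorem.**  For every `B ≥ 2 ^ 100000` there is a positive solution of
`x_{n+1} = x_{n-2} / (B x_n + x_{n-2})` that converges to no periodic sequence whatsoever (in
particular neither to the equilibrium nor to a periodic solution). -/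
theorem exists_solution : ∀ B : ℝ, (2:ℝ) ^ (100000:ℕ) ≤ B →
    ∃ x : ℕ → ℝ, (0 < x 0 ∧ 0 < x 1 ∧ 0 < x 2 ∧
        ∀ n, x (n + 3) = x n / (B * x (n + 2) + x n)) ∧
      ∀ (p : ℕ → ℝ) (k : ℕ), 1 ≤ k → (∀ n, p (n + k) = p n) →
        ¬ Tendsto (fun n => x n - p n) atTop (𝓝 0) := by
  intro B hB
  have h2 : (1:ℝ) < 2 ^ (100000:ℕ) := one_lt_pow₀ (by norm_num) (by norm_num)
  have hB1 : 1 < B := lt_of_lt_of_le h2 hB
  have hB0 : 0 < B := lt_trans zero_lt_one hB1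
  clear h2
  set g := gB B with hgdef
  have hδ0 : 0 ≤ Real.logb B 2 := Real.logb_nonneg hB1 (by norm_num)
  obtain ⟨s, hs⟩ := exists_itinerary hδ0 (logb_two_le hB) (gB_bound hB1)
    (U := Useq g) (Useq_continuous (gB_continuous hB1)) (fun s n => Useq_rec g s n)
    (fun s => by simp [Useq]) (fun s => by simp [Useq]) (fun s => by simp [Useq]) itin
  clear hδ0 hB
  set u := Useq g s with hu
  have hxpos : ∀ n, 0 < B ^ (-(u n)) := fun n => Real.rpow_pos_of_pos hB0 _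
  refine ⟨fun n => B ^ (-(u n)), ⟨hxpos 0, hxpos 1, hxpos 2, ?_⟩, ?_⟩
  · intro n
    show B ^ (-(u (n+3))) = B ^ (-(u n)) / (B * B ^ (-(u (n+2))) + B ^ (-(u n)))
    have h1 : u (n+3) = Real.logb B (1 + B ^ (1 + u n - u (n+2))) := Useq_rec g s n
    have hpos : 0 < 1 + B ^ (1 + u n - u (n+2)) := by
      have := Real.rpow_pos_of_pos hB0 (1 + u n - u (n+2))
      positivity
    have h3 : B ^ (-(u (n+3))) = (1 + B ^ (1 + u n - u (n+2)))⁻¹ := by
      rw [Real.rpow_neg hB0.le, h1, Real.rpow_logb hB0 hB1.ne' hpos]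
    rw [h3]
    have h4 : B ^ (1 + u n - u (n+2)) = B * B ^ (-(u (n+2))) / B ^ (-(u n)) := by
      rw [eq_div_iff (hxpos n).ne', ← Real.rpow_add hB0]
      have : (1 + u n - u (n+2) + -(u n)) = 1 + -(u (n+2)) := by ring
      rw [this, Real.rpow_add hB0, Real.rpow_one]
    rw [h4]
    have := hxpos n
    have := hxpos (n+2)
    field_simp
    ring
  · intro p k hk hp hlim
    -- shifting by a multiple of `k`
    have hshift : ∀ n, p (n + 1242 * k) = p n := by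
      intro n
      have : ∀ m : ℕ, p (n + m * k) = p n := by
        intro m
        induction m with
        | zero => simp
        | succ m ih =>
          have : n + (m+1) * k = (n + m * k) + k := by ring
          rw [this, hp, ih]
      exact this 1242
    have hlim2 : Tendsto (fun n => B ^ (-(u (n + 1242 * k))) - p (n + 1242 * k)) atTop (𝓝 0) :=
      hlim.comp (tendsto_add_atTop_nat (1242 * k))
    have hlim3 : Tendsto (fun n => B ^ (-(u n)) - B ^ (-(u (n + 1242 * k)))) atTop (𝓝 0) := by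
      have := hlim.sub hlim2
      simp only [sub_zero] at this
      refine this.congr (fun n => ?_)
      rw [hshift n]
      ring
    set c : ℝ := B ^ (-(327/100 : ℝ)) - B ^ (-(3285/1000 : ℝ)) with hcdef
    have hc : 0 < c := by
      have : B ^ (-(3285/1000 : ℝ)) < B ^ (-(327/100 : ℝ)) :=
        Real.rpow_lt_rpow_of_exponent_lt hB1 (by norm_num)
      rw [hcdef]
      linarith
    have hev := (hlim3.eventually (gt_mem_nhds hc))
    obtain ⟨N, hN⟩ := Filter.eventually_atTop.1 hev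
    obtain ⟨i, hi1, hi2, hi3⟩ := itin_pattern (46 * k) N
    have hK : 0 < 46 * k := by omega
    have hi0 : itin i = false := by simpa using hi2 0 hK
    have ht : tau itin (i + 46 * k) = tau itin i + 27 * (46 * k) := tau_const hi2
    have hA := hs i
    have hC := hs (i + 46 * k)
    rw [hi0] at hA
    rw [hi3, ht] at hC
    have hA2 : u (tau itin i + 1) ≤ 327/100 := hA.2
    have hC1 : 3285/1000 ≤ u (tau itin i + 27 * (46 * k) + 1) := hC.1
    have hn : tau itin i + 27 * (46 * k) + 1 = (tau itin i + 1) + 1242 * k := by ring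
    rw [hn] at hC1
    have hNle : N ≤ tau itin i + 1 := by
      have := le_tau itin i
      omega
    have hcon := hN (tau itin i + 1) hNle
    have e1 : B ^ (-(327/100 : ℝ)) ≤ B ^ (-(u (tau itin i + 1))) :=
      Real.rpow_le_rpow_of_exponent_le hB1.le (by linarith)
    have e2 : B ^ (-(u (tau itin i + 1 + 1242 * k))) ≤ B ^ (-(3285/1000 : ℝ)) :=
      Real.rpow_le_rpow_of_exponent_le hB1.le (by linarith)
    have : c ≤ B ^ (-(u (tau itin i + 1))) - B ^ (-(u (tau itin i + 1 + 1242 * k))) := by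
      rw [hcdef]; linarith
    linarith

end Pool.Agent.H50.RDE
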