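import Mathlib

/-!
# Cellular automata over monoids and surjunctive monoids: definitions
-/

set_option autoImplicit false

namespace Pool.Agent.H50.Surj

/-- `τ` is a cellular automaton over the monoid `M` with alphabet `A`: there are a finite memory
set `S` and a local defining map `μ` with `τ x m = μ (s ↦ x (s * m))`. -/
def IsCA (M : Type*) [Monoid M] (A : Type*) (τ : (M → A) → (M → A)) : Prop :=
  ∃ (S : Finset M) (μ : (S → A) → A), ∀ (x : M → A) (m : M), τ x m = μ (fun s => x (s.1 * m))

/-- `M` is surjunctive: for finite alphabets, every injective cellular automaton is surjective. -/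
def Surjunctive (M : Type*) [Monoid M] : Prop :=
  ∀ (A : Type) [Finite A] (τ : (M → A) → (M → A)),
    IsCA M A τ → Function.Injective τ → Function.Surjective τ

end Pool.Agent.H50.Surj
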