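import Mathlib
import Pool.Agent.H50.SurjDefs

/-!
# Cellular automata over monoids: basic facts
-/

set_option autoImplicit false
set_option linter.style.haveILetI false

open Set Function

namespace Pool.Agent.H50.Surj

/-- A map which is local and equivariant is a cellular automaton. -/
theorem isCA_of_local {M : Type*} [Monoid M] {A : Type*} [Nonempty A]
    {τ : (M → A) → (M → A)} (S : Finset M)
    (h : ∀ (x x' : M → A) (m m' : M), (∀ s ∈ S, x (s * m) = x' (s * m')) → τ x m = τ x' m') :
    IsCA M A τ := by
  classical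
  obtain ⟨a0⟩ := ‹Nonempty A›
  refine ⟨S, fun p => τ (fun n => if h : n ∈ S then p ⟨n, h⟩ else a0) 1, ?_⟩
  intro x m
  apply h
  intro s hs
  simp [hs]

/-- Surjunctivity can be tested with finite alphabets in any universe. -/
theorem Surjunctive.surjective {M : Type*} [Monoid M] (hM : Surjunctive M) {A : Type*} [Finite A]
    {τ : (M → A) → (M → A)} (hτ : IsCA M A τ) (hinj : Injective τ) : Surjective τ := by
  obtain ⟨n, ⟨e⟩⟩ := Finite.exists_equiv_fin A
  obtain ⟨S, μ, hμ⟩ := hτ
  have hCA : IsCA M (Fin n) (fun x m => e (τ (fun k => e.symm (x k)) m)) := by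
    refine ⟨S, fun p => e (μ (fun s => e.symm (p s))), ?_⟩
    intro x m
    show e (τ (fun k => e.symm (x k)) m) = e (μ (fun s => e.symm (x (s.1 * m))))
    rw [hμ]
  have hinj' : Injective (fun (x : M → Fin n) m => e (τ (fun k => e.symm (x k)) m)) := by
    intro x x' h
    have h1 : τ (fun k => e.symm (x k)) = τ (fun k => e.symm (x' k)) := by
      ext m
      exact e.injective (congrFun h m)
    have h2 := hinj h1
    ext k
    have := congrFun h2 k
    rw [e.symm.injective this]
  intro y
  obtain ⟨x, hx⟩ := hM (Fin n) _ hCA hinj' (fun m => e (y m))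
  refine ⟨fun k => e.symm (x k), ?_⟩
  ext m
  exact e.injective (congrFun hx m)

theorem surjunctive_of_injective {M N : Type*} [Monoid M] [Monoid N] (φ : N →* M)
    (hφ : Injective φ) (hM : Surjunctive M) : Surjunctive N := by
  classical
  intro A _ τ hτ hinj
  rcases isEmpty_or_nonempty A with hA | hA
  · intro y
    exact (hA.false (y 1)).elim
  obtain ⟨S, μ, hμ⟩ := hτ
  set φS : Finset M := S.image φ with hφS
  have hmem : ∀ s : S, φ s.1 ∈ φS := fun s => Finset.mem_image_of_mem φ s.2
  set τ' : (M → A) → (M → A) := fun x m => μ (fun s => x (φ s.1 * m)) with hτ'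
  have hCA : IsCA M A τ' := by
    refine ⟨φS, fun p => μ (fun s => p ⟨φ s.1, hmem s⟩), ?_⟩
    intro x m
    rfl
  have key : ∀ (x : M → A) (m : M) (n : N), τ (fun n => x (φ n * m)) n = τ' x (φ n * m) := by
    intro x m n
    rw [hμ]
    simp only [hτ', map_mul, mul_assoc]
  have hinj' : Injective τ' := by
    intro x x' hxx
    ext m
    have : (fun n => x (φ n * m)) = (fun n => x' (φ n * m)) := by
      apply hinj
      ext n
      rw [key, key, hxx]
    have := congrFun this 1
    simpa using this
  have hsurj := hM A τ' hCA hinj'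
  intro y
  obtain ⟨x, hx⟩ := hsurj (fun m => if h : ∃ n, φ n = m then y h.choose else Classical.arbitrary A)
  refine ⟨fun n => x (φ n), ?_⟩
  ext n
  have h1 := key x 1 n
  simp only [mul_one] at h1
  rw [h1, hx]
  have hex : ∃ n', φ n' = φ n := ⟨n, rfl⟩
  simp only [hex, dif_pos]
  rw [hφ hex.choose_spec]

theorem surjunctive_congr {M N : Type*} [Monoid M] [Monoid N] (e : M ≃* N) :
    Surjunctive M ↔ Surjunctive N :=
  ⟨surjunctive_of_injective e.symm.toMonoidHom e.symm.injective,
    surjunctive_of_injective e.toMonoidHom e.injective⟩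

section compact

variable {M : Type*} [Monoid M] {A : Type*}

theorem IsCA.shift {τ : (M → A) → (M → A)} (hτ : IsCA M A τ) (x : M → A) (m n : M) :
    τ (fun k => x (k * m)) n = τ x (n * m) := by
  obtain ⟨S, μ, hμ⟩ := hτ
  rw [hμ, hμ]
  simp only [mul_assoc]

theorem IsCA.continuous [TopologicalSpace A] [DiscreteTopology A] {τ : (M → A) → (M → A)}
    (hτ : IsCA M A τ) : Continuous τ := by
  obtain ⟨S, μ, hμ⟩ := hτ
  have : τ = fun x m => μ (fun s => x (s.1 * m)) := by
    ext x m; exact hμ x m
  rw [this]
  apply continuous_pi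
  intro m
  by_cases hA : Nonempty A
  · have h1 : Continuous fun x : M → A => (fun s : S => x (s.1 * m)) :=
      continuous_pi (fun s => continuous_apply _)
    have h2 : Continuous μ := by
      have : DiscreteTopology (S → A) := inferInstance
      exact continuous_of_discreteTopology
    exact h2.comp h1
  · have : IsEmpty (M → A) := ⟨fun f => hA ⟨f 1⟩⟩
    exact continuous_iff_continuousAt.2 (fun x => this.elim x)

/-- Injectivity of a cellular automaton is detected on a finite window. -/
theorem exists_window [Finite A] {τ : (M → A) → (M → A)} (hτ : IsCA M A τ) (hinj : Injective τ) :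
    ∃ T : Finset M, ∀ x x' : M → A, (∀ t ∈ T, τ x t = τ x' t) → x 1 = x' 1 := by
  classical
  letI : TopologicalSpace A := ⊥
  haveI : DiscreteTopology A := ⟨rfl⟩
  haveI : CompactSpace A := Finite.compactSpace
  by_contra hcon
  push Not at hcon
  have hcont := hτ.continuous
  have := CompactSpace.iInter_nonempty
    (t := fun m : M => {p : (M → A) × (M → A) | τ p.1 m = τ p.2 m ∧ p.1 1 ≠ p.2 1}) ?_ ?_
  · obtain ⟨p, hp⟩ := this
    rw [mem_iInter] at hp
    have h1 : τ p.1 = τ p.2 := by
      ext m; exact (hp m).1
    exact (hp 1).2 (by rw [hinj h1])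
  · intro m
    apply IsClosed.inter
    · exact isClosed_eq ((continuous_apply m).comp (hcont.comp continuous_fst))
        ((continuous_apply m).comp (hcont.comp continuous_snd))
    · have h2 : Continuous fun p : (M → A) × (M → A) => (p.1 1, p.2 1) :=
        ((continuous_apply 1).comp continuous_fst).prodMk ((continuous_apply 1).comp continuous_snd)
      exact (isClosed_discrete {q : A × A | q.1 ≠ q.2}).preimage h2
  · intro s
    obtain ⟨x, x', h1, h2⟩ := hcon s
    exact ⟨(x, x'), by
      simp only [mem_iInter]
      intro m hm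
      exact ⟨h1 m hm, h2⟩⟩

/-- A configuration is in the image if it is approximated on each finite set. -/
theorem mem_range_of_finite [Finite A] {τ : (M → A) → (M → A)} (hτ : IsCA M A τ) (y : M → A)
    (h : ∀ F : Finset M, ∃ x, ∀ m ∈ F, τ x m = y m) : ∃ x, τ x = y := by
  classical
  letI : TopologicalSpace A := ⊥
  haveI : DiscreteTopology A := ⟨rfl⟩
  haveI : CompactSpace A := Finite.compactSpace
  have hcont := hτ.continuous
  have := CompactSpace.iInter_nonempty
    (t := fun m : M => {x : M → A | τ x m = y m}) ?_ ?_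
  · obtain ⟨x, hx⟩ := this
    rw [mem_iInter] at hx
    exact ⟨x, funext hx⟩
  · intro m
    exact isClosed_eq ((continuous_apply m).comp hcont) continuous_const
  · intro s
    obtain ⟨x, hx⟩ := h s
    exact ⟨x, by simpa using hx⟩

end compact

end Pool.Agent.H50.Surj
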