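import Mathlib
import Pool.Agent.H50.SurjBasic

/-!
# Surjunctive monoids and their groups of units
-/

set_option autoImplicit false
set_option linter.style.haveILetI false

open Set Function

namespace Pool.Agent.H50.Surj

section rel

variable {M : Type*} [Monoid M]

/-- In a directly finite monoid the nonunits form an ideal. -/
theorem isUnit_of_mul (hJ : ∀ a b : M, a * b = 1 → b * a = 1) {a b : M} (h : IsUnit (a * b)) :
    IsUnit a ∧ IsUnit b := by
  obtain ⟨u, hu⟩ := h
  have h1 : a * (b * ↑u⁻¹) = 1 := by rw [← mul_assoc, ← hu]; simp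
  have h2 := hJ _ _ h1
  have ha : IsUnit a := ⟨⟨a, b * ↑u⁻¹, h1, h2⟩, rfl⟩
  refine ⟨ha, ?_⟩
  obtain ⟨v, hv⟩ := ha
  have : b = ↑(v⁻¹ * u) := by
    rw [Units.val_mul, hu, ← hv]; simp
  rw [this]
  exact Units.isUnit _

/-- The right orbit relation of the group of units. -/
def rsetoid (M : Type*) [Monoid M] : Setoid M where
  r m m' := ∃ u : Mˣ, m * u = m'
  iseqv := ⟨fun m => ⟨1, by simp⟩, by
    rintro m m' ⟨u, rfl⟩
    exact ⟨u⁻¹, by simp [mul_assoc]⟩, by
    rintro m m' m'' ⟨u, rfl⟩ ⟨v, rfl⟩
    exact ⟨u * v, by simp [mul_assoc]⟩⟩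

/-- A representative of the right orbit of `m` under the group of units. -/
noncomputable def rep (m : M) : M := (Quotient.mk (rsetoid M) m).out

theorem exists_rep_mul (m : M) : ∃ u : Mˣ, rep m * u = m := by
  have h := Quotient.mk_out (s := rsetoid M) m
  exact h

theorem rep_mul (m : M) (u : Mˣ) : rep (m * u) = rep m := by
  unfold rep
  congr 1
  apply Quotient.sound
  exact ⟨u⁻¹, by simp [mul_assoc]⟩

variable {A : Type}

/-- The relative map on the units with control `ρ`. -/
noncomputable def relMap (S : Finset M) (μ : (S → A) → A) (ρ : M → A) (z : Mˣ → A) (u : Mˣ) : A :=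
  by
    classical
    exact μ (fun s => if h : IsUnit s.1 then z (h.unit * u) else ρ (s.1 * u))

/-- Gluing a configuration on the units with a configuration on the nonunits. -/
noncomputable def glue (z : Mˣ → A) (ρ : M → A) (m : M) : A := by
  classical
  exact if h : IsUnit m then z h.unit else ρ m

theorem glue_unit (z : Mˣ → A) (ρ : M → A) (u : Mˣ) : glue z ρ (u : M) = z u := by
  unfold glue
  rw [dif_pos u.isUnit]
  congr 1
  exact Units.ext (by simp)

theorem glue_nonunit (z : Mˣ → A) (ρ : M → A) {m : M} (h : ¬ IsUnit m) : glue z ρ m = ρ m := by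
  unfold glue
  rw [dif_neg h]

theorem relMap_eq (hJ : ∀ a b : M, a * b = 1 → b * a = 1) (S : Finset M) (μ : (S → A) → A)
    (ρ : M → A) (z : Mˣ → A) (u : Mˣ) :
    μ (fun s => glue z ρ (s.1 * u)) = relMap S μ ρ z u := by
  unfold relMap
  congr 1
  ext s
  by_cases h : IsUnit s.1
  · have : s.1 * (u : M) = ((h.unit * u : Mˣ) : M) := by simp
    rw [this, glue_unit, dif_pos h]
  · have : ¬ IsUnit (s.1 * (u : M)) := fun h' => h (isUnit_of_mul hJ h').1
    rw [glue_nonunit _ _ this, dif_neg h]

theorem relMap_congr (S : Finset M) (μ : (S → A) → A)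
    (ρ ρ' : M → A) (z z' : Mˣ → A) (u u' : Mˣ)
    (h1 : ∀ s ∈ S, ∀ h : IsUnit s, z (h.unit * u) = z' (h.unit * u'))
    (h2 : ∀ s ∈ S, ¬ IsUnit s → ρ (s * u) = ρ' (s * u')) :
    relMap S μ ρ z u = relMap S μ ρ' z' u' := by
  unfold relMap
  congr 1
  ext s
  by_cases h : IsUnit s.1
  · rw [dif_pos h, dif_pos h, h1 _ s.2]
  · rw [dif_neg h, dif_neg h, h2 _ s.2 h]

theorem relMap_injective (hJ : ∀ a b : M, a * b = 1 → b * a = 1) {τ : (M → A) → (M → A)}
    (hinj : Injective τ) {S : Finset M} {μ : (S → A) → A}
    (hμ : ∀ x m, τ x m = μ (fun s => x (s.1 * m))) (ρ : M → A) : Injective (relMap S μ ρ) := by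
  intro z z' hzz
  have h1 : τ (glue z ρ) = τ (glue z' ρ) := by
    ext m
    by_cases hm : IsUnit m
    · obtain ⟨u, rfl⟩ := hm
      rw [hμ, hμ, relMap_eq hJ S μ ρ z u, relMap_eq hJ S μ ρ z' u, hzz]
    · rw [hμ, hμ]
      congr 1
      ext s
      have : ¬ IsUnit (s.1 * m) := fun h' => hm (isUnit_of_mul hJ h').2
      rw [glue_nonunit _ _ this, glue_nonunit _ _ this]
  have h2 := hinj h1
  ext u
  have := congrFun h2 (u : M)
  rwa [glue_unit, glue_unit] at this

/-- **Relative surjectivity.** If the group of units is surjunctive and the right stabilizers in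
the group of units are finite, then for each control configuration on the nonunits the relative map
on the units is surjective. -/
theorem relMap_surjective (hJ : ∀ a b : M, a * b = 1 → b * a = 1) (hU : Surjunctive Mˣ)
    (hfin : ∀ m : M, {u : Mˣ | m * u = m}.Finite) [Finite A] {τ : (M → A) → (M → A)}
    (hinj : Injective τ) {S : Finset M} {μ : (S → A) → A}
    (hμ : ∀ x m, τ x m = μ (fun s => x (s.1 * m))) (ρ : M → A) : Surjective (relMap S μ ρ) := by
  classical
  have a0 : A := ρ 1
  haveI : Nonempty A := ⟨a0⟩
  -- representatives of the nonunits in the memory set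
  let R : Finset M := (S.filter (fun s => ¬ IsUnit s)).image rep
  have hRmem : ∀ s ∈ S, ¬ IsUnit s → rep s ∈ R := fun s hs h =>
    Finset.mem_image_of_mem _ (Finset.mem_filter.2 ⟨hs, h⟩)
  let wx : (R → A) → M → A := fun c n => if h : n ∈ R then c ⟨n, h⟩ else a0
  -- the control configuration on `M` determined by `w`
  let rho : (Mˣ → (R → A)) → M → A := fun w m =>
    Classical.epsilon (fun a => ∀ v : Mˣ, rep m * v = m → wx (w v) (rep m) = a)
  -- the finite sets of units involved
  have hfin2 : ∀ m : M, {v : Mˣ | rep m * v = m}.Finite := by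
    intro m
    obtain ⟨v0, hv0⟩ := exists_rep_mul m
    apply Set.Finite.subset ((hfin (rep m)).image (fun h => h * v0))
    intro v hv
    refine ⟨v * v0⁻¹, ?_, by simp⟩
    show rep m * ((v * v0⁻¹ : Mˣ) : M) = rep m
    have hv' : rep m * (v : M) = m := hv
    rw [Units.val_mul, ← mul_assoc, hv']
    conv_lhs => rw [← hv0]
    rw [mul_assoc]
    simp
  let S' : Finset Mˣ := insert 1 (S.biUnion (fun s =>
    if h : IsUnit s then {h.unit} else (hfin2 s).toFinset))
  let τ' : (Mˣ → A × (R → A)) → (Mˣ → A × (R → A)) := fun f u =>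
    (relMap S μ (rho (fun v => (f v).2)) (fun v => (f v).1) u, (f u).2)
  have hCA : IsCA Mˣ (A × (R → A)) τ' := by
    apply isCA_of_local S'
    intro f f' u u' hff
    have h1 : f u = f' u' := by
      have := hff 1 (Finset.mem_insert_self _ _)
      simpa using this
    have h2 : ∀ s ∈ S, ∀ h : IsUnit s, f (h.unit * u) = f' (h.unit * u') := by
      intro s hs h
      apply hff
      apply Finset.mem_insert_of_mem
      rw [Finset.mem_biUnion]
      exact ⟨s, hs, by simp [h]⟩
    have h3 : ∀ s ∈ S, ¬ IsUnit s → ∀ v : Mˣ, rep s * v = s → f (v * u) = f' (v * u') := by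
      intro s hs h v hv
      apply hff
      apply Finset.mem_insert_of_mem
      rw [Finset.mem_biUnion]
      exact ⟨s, hs, by simpa [h] using hv⟩
    have h4 : ∀ s ∈ S, ¬ IsUnit s →
        rho (fun v => (f v).2) (s * u) = rho (fun v => (f' v).2) (s * u') := by
      intro s hs h
      show Classical.epsilon _ = Classical.epsilon _
      congr 1
      ext a
      rw [rep_mul, rep_mul]
      constructor
      · intro hall v hv
        have e1 : rep s * ((v * u'⁻¹ : Mˣ) : M) = s := by
          rw [Units.val_mul, ← mul_assoc, hv, mul_assoc]; simp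
        have e2 := h3 s hs h _ e1
        have e3 : v * u'⁻¹ * u' = v := by group
        rw [e3] at e2
        show wx ((f' v).2) (rep s) = a
        rw [← e2]
        apply hall
        rw [Units.val_mul, ← mul_assoc, e1]
      · intro hall v hv
        have e1 : rep s * ((v * u⁻¹ : Mˣ) : M) = s := by
          rw [Units.val_mul, ← mul_assoc, hv, mul_assoc]; simp
        have e2 := h3 s hs h _ e1
        have e3 : v * u⁻¹ * u = v := by group
        rw [e3] at e2
        show wx ((f v).2) (rep s) = a
        rw [e2]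
        apply hall
        rw [Units.val_mul, ← mul_assoc, e1]
    have h5 : relMap S μ (rho (fun v => (f v).2)) (fun v => (f v).1) u =
        relMap S μ (rho (fun v => (f' v).2)) (fun v => (f' v).1) u' := by
      apply relMap_congr
      · intro s hs h
        rw [h2 s hs h]
      · exact h4
    show (_, _) = (_, _)
    rw [h5, h1]
  have hinj' : Injective τ' := by
    intro f f' hff
    have h1 : ∀ u, (f u).2 = (f' u).2 := by
      intro u
      have := congrArg Prod.snd (congrFun hff u)
      exact this
    have h2 : (fun v => (f v).2) = (fun v => (f' v).2) := funext h1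
    have h3 : (fun v => (f v).1) = (fun v => (f' v).1) := by
      apply relMap_injective hJ hinj hμ (rho (fun v => (f v).2))
      ext u
      have := congrArg Prod.fst (congrFun hff u)
      simp only [τ'] at this
      rw [← h2] at this
      exact this
    ext u
    · exact congrFun h3 u
    · rw [h1 u]
  have hsurj := hU.surjective hCA hinj'
  intro y
  -- the control configuration given by `ρ`
  let w : Mˣ → (R → A) := fun v r => ρ (r.1 * v)
  obtain ⟨f, hf⟩ := hsurj (fun u => (y u, w u))
  have hw : (fun v => (f v).2) = w := by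
    ext1 u
    exact congrArg Prod.snd (congrFun hf u)
  refine ⟨fun v => (f v).1, ?_⟩
  ext u
  have h1 : relMap S μ (rho (fun v => (f v).2)) (fun v => (f v).1) u = y u :=
    congrArg Prod.fst (congrFun hf u)
  rw [← h1]
  apply relMap_congr
  · intro s _ h
    rfl
  · intro s hs h
    rw [hw]
    -- compute `rho w (s * u)`
    have hR : rep (s * u) ∈ R := by rw [rep_mul]; exact hRmem s hs h
    have hwx : ∀ v : Mˣ, rep (s * u) * v = s * u → wx (w v) (rep (s * u)) = ρ (s * u) := by
      intro v hv
      simp only [wx, dif_pos hR, w]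
      rw [hv]
    have hex : ∃ a, ∀ v : Mˣ, rep (s * u) * v = s * u → wx (w v) (rep (s * u)) = a :=
      ⟨_, hwx⟩
    have hspec := Classical.epsilon_spec hex
    obtain ⟨v0, hv0⟩ := exists_rep_mul (s * (u : M))
    have e1 := hspec v0 hv0
    rw [hwx v0 hv0] at e1
    exact e1

end rel

end Pool.Agent.H50.Surj
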