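import Mathlib
import Pool.Agent.H50.SurjUnits

/-!
# Monoids in which only units have fixed points on one side
-/

set_option autoImplicit false
set_option linter.style.haveILetI false

open Set Function

namespace Pool.Agent.H50.Surj

variable {M : Type*} [Monoid M]

theorem directlyFinite_left (h : ∀ s m : M, s * m = m → IsUnit s) {a b : M} (hab : a * b = 1) :
    b * a = 1 := by
  have h1 : (b * a) * b = b := by rw [mul_assoc, hab, mul_one]
  obtain ⟨u, hu⟩ := h _ _ h1
  have h2 : (b * a) * (b * a) = b * a := by rw [← mul_assoc, h1]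
  rw [← hu] at h2 ⊢
  have h3 : u * u = u := Units.ext (by simpa using h2)
  have h4 : u = 1 := by simpa using h3
  rw [h4]; rfl

theorem directlyFinite_right (h : ∀ s m : M, m * s = m → IsUnit s) {a b : M} (hab : a * b = 1) :
    b * a = 1 := by
  have h1 : a * (b * a) = a := by rw [← mul_assoc, hab, one_mul]
  obtain ⟨u, hu⟩ := h _ _ h1
  have h2 : (b * a) * (b * a) = b * a := by rw [mul_assoc, h1]
  rw [← hu] at h2 ⊢
  have h3 : u * u = u := Units.ext (by simpa using h2)
  have h4 : u = 1 := by simpa using h3
  rw [h4]; rfl

section left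

variable {A : Type}

/-- The left orbit of `m` under the group of units. -/
def lorbit (m : M) : Set M := {n | ∃ u : Mˣ, (u : M) * m = n}

theorem surjective_of_left (h : ∀ s m : M, s * m = m → IsUnit s) (hU : Surjunctive Mˣ)
    (hfin : ∀ m : M, {u : Mˣ | m * u = m}.Finite) [Finite A] {τ : (M → A) → (M → A)}
    (hτ : IsCA M A τ) (hinj : Injective τ) : Surjective τ := by
  classical
  have hJ : ∀ a b : M, a * b = 1 → b * a = 1 := fun a b hab => directlyFinite_left h hab
  intro y
  rcases isEmpty_or_nonempty A with hA | hA
  · exact (hA.false (y 1)).elim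
  apply mem_range_of_finite hτ
  obtain ⟨S, μ, hμ⟩ := hτ
  -- the claim for all orbits meeting `F`
  have main : ∀ (k : ℕ) (F : Finset M), F.card ≤ k →
      ∃ x, ∀ m ∈ F, ∀ u : Mˣ, τ x (u * m) = y (u * m) := by
    intro k
    induction k with
    | zero =>
      intro F hF
      have : F = ∅ := Finset.card_eq_zero.1 (Nat.le_zero.1 hF)
      subst this
      exact ⟨fun _ => Classical.arbitrary A, by simp⟩
    | succ k ih =>
      intro F hF
      rcases F.eq_empty_or_nonempty with rfl | hne
      · exact ⟨fun _ => Classical.arbitrary A, by simp⟩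
      -- a minimal element
      have hmin : ∃ m0 ∈ F, ∀ m ∈ F, ¬ ∃ a : M, ¬ IsUnit a ∧ a * m = m0 := by
        by_contra hcon
        push Not at hcon
        -- build an infinite chain
        choose! g hg1 a ha1 ha2 using hcon
        obtain ⟨d, hd⟩ := hne
        have hmem : ∀ n, g^[n] d ∈ F := by
          intro n
          induction n with
          | zero => simpa using hd
          | succ n ihn => rw [Function.iterate_succ_apply']; exact hg1 _ ihn
        have hrel : ∀ i n, ∃ w : M, ¬ IsUnit w ∧ w * g^[i + n + 1] d = g^[i] d := by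
          intro i n
          induction n with
          | zero =>
            refine ⟨a (g^[i] d), ha1 _ (hmem i), ?_⟩
            have := ha2 _ (hmem i)
            rw [← Function.iterate_succ_apply' g i d] at this
            exact this
          | succ n ihn =>
            obtain ⟨w, hw1, hw2⟩ := ihn
            refine ⟨w * a (g^[i + n + 1] d), fun hu => hw1 (isUnit_of_mul hJ hu).1, ?_⟩
            have := ha2 _ (hmem (i + n + 1))
            rw [← Function.iterate_succ_apply' g (i + n + 1) d] at this
            rw [mul_assoc, show i + (n + 1) + 1 = (i + n + 1).succ from rfl, this, hw2]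
        obtain ⟨i, j, hij, heq⟩ := Finite.exists_ne_map_eq_of_infinite
          (fun n : ℕ => (⟨g^[n] d, hmem n⟩ : F))
        have heq' : g^[i] d = g^[j] d := by simpa using heq
        rcases lt_or_gt_of_ne hij with hlt | hlt
        · obtain ⟨w, hw1, hw2⟩ := hrel i (j - i - 1)
          rw [show i + (j - i - 1) + 1 = j by omega, ← heq'] at hw2
          exact hw1 (h _ _ hw2)
        · obtain ⟨w, hw1, hw2⟩ := hrel j (i - j - 1)
          rw [show j + (i - j - 1) + 1 = i by omega, heq'] at hw2
          exact hw1 (h _ _ hw2)
      obtain ⟨m0, hm0, hm0min⟩ := hmin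
      obtain ⟨x, hx⟩ := ih (F.filter (fun m => m ∉ lorbit m0)) (by
        have : (F.filter (fun m => m ∉ lorbit m0)).card < F.card := by
          apply Finset.card_lt_card
          refine ⟨Finset.filter_subset _ _, ?_⟩
          intro hsub
          have := Finset.mem_filter.1 (hsub hm0)
          exact this.2 ⟨1, by simp⟩
        omega)
      -- solve on the orbit of `m0`
      obtain ⟨z, hz⟩ := relMap_surjective hJ hU hfin hinj hμ (fun n => x (n * m0))
        (fun u => y (u * m0))
      -- `z` is invariant under the stabilizer of `m0`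
      have hzinv : ∀ c : Mˣ, (c : M) * m0 = m0 → ∀ u, z (u * c) = z u := by
        intro c hc
        have : (fun u => z (u * c)) = z := by
          apply relMap_injective hJ hinj hμ (fun n => x (n * m0))
          rw [hz]
          have h2 : ∀ u, relMap S μ (fun n => x (n * m0)) (fun u => z (u * c)) u =
              relMap S μ (fun n => x (n * m0)) z (u * c) := by
            intro u
            apply relMap_congr
            · intro s _ hs
              rw [mul_assoc]
            · intro s _ hs
              show x (s * u * m0) = x (s * ((u * c : Mˣ) : M) * m0)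
              rw [Units.val_mul, mul_assoc, mul_assoc, mul_assoc (u : M), hc]
          ext u
          rw [h2, hz]
          show y (((u * c : Mˣ) : M) * m0) = y (u * m0)
          rw [Units.val_mul, mul_assoc, hc]
        intro u
        exact congrFun this u
      let x' : M → A := fun n => if hn : ∃ u : Mˣ, (u : M) * m0 = n then z hn.choose else x n
      have hx'1 : ∀ u : Mˣ, x' (u * m0) = z u := by
        intro u
        have hn : ∃ v : Mˣ, (v : M) * m0 = u * m0 := ⟨u, rfl⟩
        have e1 : x' (u * m0) = z hn.choose := dif_pos hn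
        rw [e1]
        have hsp := hn.choose_spec
        set v := hn.choose
        have hc : ((u⁻¹ * v : Mˣ) : M) * m0 = m0 := by
          rw [Units.val_mul, mul_assoc, hsp, ← mul_assoc]; simp
        have := hzinv (u⁻¹ * v) hc u
        rw [← this]
        congr 1
        group
      have hx'2 : ∀ n, n ∉ lorbit m0 → x' n = x n := by
        intro n hn
        exact dif_neg hn
      refine ⟨x', ?_⟩
      intro m hm u
      by_cases hmo : m ∈ lorbit m0
      · obtain ⟨v, rfl⟩ := hmo
        have e1 : (u : M) * ((v : M) * m0) = ((u * v : Mˣ) : M) * m0 := by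
          rw [Units.val_mul, mul_assoc]
        rw [e1, hμ]
        have e2 : μ (fun s => x' (s.1 * (((u * v : Mˣ) : M) * m0))) =
            relMap S μ (fun n => x (n * m0)) z (u * v) := by
          unfold relMap
          congr 1
          ext s
          by_cases hs : IsUnit s.1
          · rw [dif_pos hs]
            have : s.1 * (((u * v : Mˣ) : M) * m0) = ((hs.unit * (u * v) : Mˣ) : M) * m0 := by
              rw [← mul_assoc]; simp
            rw [this, hx'1]
          · rw [dif_neg hs, hx'2, ← mul_assoc]
            rintro ⟨c, hc⟩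
            apply hs
            -- `c⁻¹ * s * (u * v)` fixes `m0`
            have hfix : ((c⁻¹ : Mˣ) : M) * (s.1 * ((u * v : Mˣ) : M)) * m0 = m0 := by
              rw [mul_assoc, mul_assoc, ← hc, ← mul_assoc]; simp
            have := h _ _ hfix
            exact (isUnit_of_mul hJ (isUnit_of_mul hJ this).2).1
        rw [e2, hz]
      · have hmF : m ∈ F.filter (fun m => m ∉ lorbit m0) := Finset.mem_filter.2 ⟨hm, hmo⟩
        rw [← hx m hmF u, hμ, hμ]
        congr 1
        ext s
        apply hx'2
        rintro ⟨c, hc⟩
        -- `c * m0 = s * (u * m)`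
        have h1 : ((c⁻¹ : Mˣ) : M) * (s.1 * u) * m = m0 := by
          rw [mul_assoc, mul_assoc, ← hc, ← mul_assoc]; simp
        by_cases hunit : IsUnit (((c⁻¹ : Mˣ) : M) * (s.1 * u))
        · obtain ⟨v, hv⟩ := hunit
          apply hmo
          refine ⟨v⁻¹, ?_⟩
          rw [← h1, ← hv, ← mul_assoc]; simp
        · exact hm0min m hm ⟨_, hunit, h1⟩
  intro F
  obtain ⟨x, hx⟩ := main F.card F le_rfl
  refine ⟨x, fun m hm => ?_⟩
  have := hx m hm 1
  simpa using this

end left

section right

variable {A : Type}

theorem surjective_of_right (h : ∀ s m : M, m * s = m → IsUnit s) (hU : Surjunctive Mˣ)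
    (hfin : ∀ m : M, {u : Mˣ | m * u = m}.Finite) [Finite A] {τ : (M → A) → (M → A)}
    (hτ : IsCA M A τ) (hinj : Injective τ) : Surjective τ := by
  classical
  have hJ : ∀ a b : M, a * b = 1 → b * a = 1 := fun a b hab => directlyFinite_right h hab
  rcases isEmpty_or_nonempty A with hA | hA
  · intro y; exact (hA.false (y 1)).elim
  obtain ⟨T, hT⟩ := exists_window hτ hinj
  have hshift := fun (x : M → A) (m n : M) => hτ.shift x m n
  obtain ⟨S, μ, hμ⟩ := hτ
  -- the left inverse
  let σ : (M → A) → (M → A) := fun y m =>
    Classical.epsilon (fun a => ∃ x : M → A, (∀ t ∈ T, τ x t = y (t * m)) ∧ x 1 = a)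
  have hστ : ∀ x, σ (τ x) = x := by
    intro x
    ext m
    have hex : ∃ a, ∃ x' : M → A, (∀ t ∈ T, τ x' t = τ x (t * m)) ∧ x' 1 = a :=
      ⟨_, fun k => x (k * m), fun t _ => hshift x m t, rfl⟩
    obtain ⟨x', h1, h2⟩ := Classical.epsilon_spec hex
    have h3 : x' 1 = (fun k => x (k * m)) 1 := by
      apply hT x' (fun k => x (k * m))
      intro t ht
      rw [h1 t ht, hshift]
    have h4 : σ (τ x) m = x' 1 := h2.symm
    rw [h4, h3]
    simp
  let X : (M → A) → (M → A) := fun y => τ (σ y)
  have hXτ : ∀ x, X (τ x) = τ x := by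
    intro x
    show τ (σ (τ x)) = τ x
    rw [hστ]
  -- locality of `X`
  let E : Finset M := (S ×ˢ T).image (fun p => p.2 * p.1)
  have hXloc : ∀ (y y' : M → A) (m m' : M), (∀ e ∈ E, y (e * m) = y' (e * m')) →
      X y m = X y' m' := by
    intro y y' m m' hyy
    show τ (σ y) m = τ (σ y') m'
    rw [hμ, hμ]
    congr 1
    ext s
    show Classical.epsilon _ = Classical.epsilon _
    congr 1
    ext a
    have : ∀ t ∈ T, y (t * (s.1 * m)) = y' (t * (s.1 * m')) := by
      intro t ht
      rw [← mul_assoc, ← mul_assoc]
      apply hyy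
      exact Finset.mem_image.2 ⟨(s.1, t), Finset.mem_product.2 ⟨s.2, ht⟩, rfl⟩
    constructor
    · rintro ⟨x, hx, rfl⟩
      exact ⟨x, fun t ht => by rw [hx t ht, this t ht], rfl⟩
    · rintro ⟨x, hx, rfl⟩
      exact ⟨x, fun t ht => by rw [hx t ht, this t ht], rfl⟩
  -- the image of `τ` is free on the units
  have hfree : ∀ x : M → A, ∀ y' : M → A, (∀ m, ¬ IsUnit m → y' m = τ x m) → ∃ x', τ x' = y' := by
    intro x y' hy'
    obtain ⟨z, hz⟩ := relMap_surjective hJ hU hfin hinj hμ x (fun u => y' u)
    refine ⟨glue z x, ?_⟩
    ext m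
    by_cases hm : IsUnit m
    · obtain ⟨u, rfl⟩ := hm
      rw [hμ, relMap_eq hJ S μ x z u, hz]
    · rw [hy' m hm, hμ, hμ]
      congr 1
      ext s
      exact glue_nonunit _ _ (fun h' => hm (isUnit_of_mul hJ h').2)
  -- patterns of the image on the nonunits of `E`
  let EJ : Finset M := E.filter (fun e => ¬ IsUnit e)
  let V : (M → A) → Prop := fun c => ∃ x : M → A, ∀ e ∈ EJ, τ x e = c e
  have hVcongr : ∀ c c' : M → A, (∀ e ∈ EJ, c e = c' e) → V c → V c' := by
    rintro c c' hcc ⟨x, hx⟩
    exact ⟨x, fun e he => by rw [hx e he, hcc e he]⟩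
  have hVτ : ∀ (x : M → A) (m : M), V (fun n => τ x (n * m)) := by
    intro x m
    exact ⟨fun k => x (k * m), fun e _ => hshift x m e⟩
  have claim1 : ∀ (x : M → A) (m : M), V (fun n => x (n * m)) → X x m = x m := by
    rintro x m ⟨x1, hx1⟩
    -- the glued configuration is in the image
    obtain ⟨x2, hx2⟩ := hfree x1 (fun n => if IsUnit n then x (n * m) else τ x1 n)
      (fun n hn => by simp [hn])
    have h1 : X x m = X (τ x2) 1 := by
      apply hXloc
      intro e he
      rw [hx2, mul_one]
      by_cases hu : IsUnit e
      · simp [hu]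
      · simp only [hu, if_false]
        exact (hx1 e (Finset.mem_filter.2 ⟨he, hu⟩)).symm
    rw [h1, hXτ, hx2]
    simp
  -- essential coordinates
  let Ess : M → Prop := fun d => d ∈ EJ ∧ ∃ (c : M → A) (a : A), V c ∧ ¬ V (Function.update c d a)
  have hpath : ∀ (F : Finset M), (∀ e ∈ F, ¬ Ess e) → (∀ e ∈ F, e ∈ EJ) →
      ∀ c c' : M → A, (∀ n, n ∉ F → c n = c' n) → V c → V c' := by
    intro F
    induction F using Finset.induction_on with
    | empty =>
      intro _ _ c c' hcc hc
      exact hVcongr c c' (fun e _ => hcc e (by simp)) hc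
    | insert e F he ih =>
      intro h1 h2 c c' hcc hc
      have hV' : V (Function.update c e (c' e)) := by
        by_contra hcon
        exact h1 e (Finset.mem_insert_self _ _)
          ⟨h2 e (Finset.mem_insert_self _ _), c, c' e, hc, hcon⟩
      apply ih (fun e' he' => h1 e' (Finset.mem_insert_of_mem he'))
        (fun e' he' => h2 e' (Finset.mem_insert_of_mem he')) _ c' _ hV'
      intro n hn
      by_cases hne : n = e
      · subst hne; simp
      · rw [Function.update_of_ne hne]
        apply hcc
        simp [hne, hn]
  -- descent on essential coordinates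
  have claim4 : ∀ d, Ess d → ∃ d', Ess d' ∧ ∃ m, ¬ IsUnit m ∧ d' * m = d := by
    rintro d ⟨hdE, c, a, ⟨x0, hx0⟩, hnV⟩
    -- the changed configuration
    let x := Function.update (τ x0) d a
    have hxV : ¬ V x := by
      intro hx
      apply hnV
      apply hVcongr x _ _ hx
      intro e he
      by_cases hed : e = d
      · subst hed; simp [x]
      · simp only [x, Function.update_of_ne hed]
        exact hx0 e he
    have hXV : V (X x) := ⟨σ x, fun e _ => rfl⟩
    have hdiff : ∃ m ∈ EJ, X x m ≠ x m := by
      by_contra hcon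
      push Not at hcon
      exact hxV (hVcongr _ _ hcon hXV)
    obtain ⟨m, hmE, hm⟩ := hdiff
    have hbad : ¬ V (fun n => x (n * m)) := fun hV => hm (claim1 x m hV)
    -- the coordinates `e` with `e * m = d`
    by_contra hcon
    push Not at hcon
    have hmu : ¬ IsUnit m := (Finset.mem_filter.1 hmE).2
    let F : Finset M := EJ.filter (fun e => e * m = d)
    have h1 : ∀ e ∈ F, ¬ Ess e := by
      intro e he hess
      exact hcon e hess m hmu (Finset.mem_filter.1 he).2
    have h2 : V (fun n => if n ∈ F then x (n * m) else τ x0 (n * m)) := by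
      apply hpath F h1 (fun e he => (Finset.mem_filter.1 he).1) (fun n => τ x0 (n * m)) _ _
        (hVτ x0 m)
      intro n hn
      simp [hn]
    apply hbad
    apply hVcongr _ _ _ h2
    intro e he
    by_cases heF : e ∈ F
    · simp [heF]
    · have : e * m ≠ d := fun h' => heF (Finset.mem_filter.2 ⟨he, h'⟩)
      simp only [heF, if_false, x, Function.update_of_ne this]
  have hnoEss : ∀ d, ¬ Ess d := by
    intro d0 hd0
    choose! g hg1 w hw1 hw2 using claim4
    have hmem : ∀ n, Ess (g^[n] d0) := by
      intro n
      induction n with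
      | zero => simpa using hd0
      | succ n ihn => rw [Function.iterate_succ_apply']; exact hg1 _ ihn
    have hrel : ∀ i n, ∃ v : M, ¬ IsUnit v ∧ g^[i + n + 1] d0 * v = g^[i] d0 := by
      intro i n
      induction n with
      | zero =>
        refine ⟨w (g^[i] d0), hw1 _ (hmem i), ?_⟩
        have := hw2 _ (hmem i)
        rw [← Function.iterate_succ_apply' g i d0] at this
        exact this
      | succ n ihn =>
        obtain ⟨v, hv1, hv2⟩ := ihn
        refine ⟨w (g^[i + n + 1] d0) * v, fun hu => hv1 (isUnit_of_mul hJ hu).2, ?_⟩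
        have := hw2 _ (hmem (i + n + 1))
        rw [← Function.iterate_succ_apply' g (i + n + 1) d0] at this
        rw [← mul_assoc, show i + (n + 1) + 1 = (i + n + 1).succ from rfl, this, hv2]
    obtain ⟨i, j, hij, heq⟩ := Finite.exists_ne_map_eq_of_infinite
      (fun n : ℕ => (⟨g^[n] d0, (hmem n).1⟩ : EJ))
    have heq' : g^[i] d0 = g^[j] d0 := by simpa using heq
    rcases lt_or_gt_of_ne hij with hlt | hlt
    · obtain ⟨v, hv1, hv2⟩ := hrel i (j - i - 1)
      rw [show i + (j - i - 1) + 1 = j by omega, ← heq'] at hv2
      exact hv1 (h _ _ hv2)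
    · obtain ⟨v, hv1, hv2⟩ := hrel j (i - j - 1)
      rw [show j + (i - j - 1) + 1 = i by omega, heq'] at hv2
      exact hv1 (h _ _ hv2)
  -- all patterns occur
  have hall : ∀ c, V c := by
    intro c
    have h1 : V (fun n => if n ∈ EJ then c n else τ c n) := by
      apply hpath EJ (fun e _ => hnoEss e) (fun e he => he) (τ c) _ _ ⟨c, fun e _ => rfl⟩
      intro n hn
      simp [hn]
    apply hVcongr _ _ _ h1
    intro e he
    simp [he]
  intro y
  refine ⟨σ y, ?_⟩
  ext m
  exact claim1 y m (hall _)

end right

/-- **Theorem.** Suppose that only units of `M` have fixed points on one side and that the right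
stabilizers in the group of units are finite. Then `M` is surjunctive if and only if its group of
units is. -/
theorem surjunctive_iff_units
    (h : (∀ s m : M, s * m = m → IsUnit s) ∨ (∀ s m : M, m * s = m → IsUnit s))
    (hfin : ∀ m : M, {u : Mˣ | m * u = m}.Finite) : Surjunctive M ↔ Surjunctive Mˣ := by
  constructor
  · exact surjunctive_of_injective (Units.coeHom M) Units.val_injective
  · intro hU A _ τ hτ hinj
    rcases h with h | h
    · exact surjective_of_left h hU hfin hτ hinj
    · exact surjective_of_right h hU hfin hτ hinj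

theorem surjunctive_units_op (h : Surjunctive Mˣ) : Surjunctive (Mᵐᵒᵖ)ˣ :=
  (surjunctive_congr ((Units.opEquiv (M := M)).trans (MulEquiv.inv' Mˣ).symm)).2 h

/-- **Theorem.** The implication of Q1 for monoids in which only units have fixed points on one
side, with finite left stabilizers in the group of units. -/
theorem surjunctive_op
    (h : (∀ s m : M, s * m = m → IsUnit s) ∨ (∀ s m : M, m * s = m → IsUnit s))
    (hfin : ∀ m : M, {u : Mˣ | (u : M) * m = m}.Finite) (hM : Surjunctive M) :
    Surjunctive Mᵐᵒᵖ := by
  have hU : Surjunctive Mˣ :=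
    surjunctive_of_injective (Units.coeHom M) Units.val_injective hM
  rw [surjunctive_iff_units]
  · exact surjunctive_units_op hU
  · rcases h with h | h
    · right
      intro s m hsm
      have := h s.unop m.unop (by rw [← MulOpposite.unop_mul, hsm])
      exact isUnit_unop.1 this
    · left
      intro s m hsm
      have := h s.unop m.unop (by rw [← MulOpposite.unop_mul, hsm])
      exact isUnit_unop.1 this
  · intro m
    apply Set.Finite.of_injOn (f := fun u : (Mᵐᵒᵖ)ˣ => (Units.opEquiv u).unop) _ _
      (hfin m.unop)
    · intro u hu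
      have hu' : m * (u : Mᵐᵒᵖ) = m := hu
      show (((Units.opEquiv u).unop : Mˣ) : M) * m.unop = m.unop
      have : (((Units.opEquiv u).unop : Mˣ) : M) = (u : Mᵐᵒᵖ).unop := by simp
      rw [this, ← MulOpposite.unop_mul, hu']
    · intro u _ v _ huv
      exact Units.opEquiv.injective (MulOpposite.unop_injective huv)

end Pool.Agent.H50.Surj
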