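import Mathlib
import Pool.Agent.H50.SurjBasic

/-!
# Surjunctivity passes to subsemigroups that are monoids
-/

set_option autoImplicit false

open Set Function

namespace Pool.Agent.H50.Surj

theorem surjunctive_of_injective_mulHom {M N : Type*} [Monoid M] [Monoid N] (φ : N →ₙ* M)
    (hφ : Injective φ) (hM : Surjunctive M) : Surjunctive N := by
  classical
  intro A _ τ hτ hinj
  rcases isEmpty_or_nonempty A with hA | hA
  · intro y
    exact (hA.false (y 1)).elim
  obtain ⟨S, μ, hμ⟩ := hτ
  set e : M := φ 1 with he
  have heφ : ∀ n, e * φ n = φ n := by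
    intro n
    rw [he, ← map_mul, one_mul]
  have hee : e * e = e := heφ 1
  -- the extended automaton
  set τ' : (M → A) → (M → A) := fun x m =>
    Equiv.swap (x (e * m)) (μ (fun s => x (φ s.1 * m))) (x m) with hτ'
  have hfix : ∀ (x : M → A) (m : M), e * m = m → τ' x m = μ (fun s => x (φ s.1 * m)) := by
    intro x m hm
    show Equiv.swap (x (e * m)) (μ (fun s => x (φ s.1 * m))) (x m) = _
    rw [hm, Equiv.swap_apply_left]
  have hCA : IsCA M A τ' := by
    apply isCA_of_local (insert 1 (insert e (S.image φ)))
    intro x x' m m' h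
    have h1 : x m = x' m' := by
      have := h 1 (by simp)
      simpa using this
    have h2 : x (e * m) = x' (e * m') := h e (by simp)
    have h3 : (fun s : S => x (φ s.1 * m)) = fun s : S => x' (φ s.1 * m') := by
      ext s
      apply h
      simp only [Finset.mem_insert, Finset.mem_image]
      exact Or.inr (Or.inr ⟨s.1, s.2, rfl⟩)
    show Equiv.swap (x (e * m)) (μ (fun s => x (φ s.1 * m))) (x m) =
      Equiv.swap (x' (e * m')) (μ (fun s => x' (φ s.1 * m'))) (x' m')
    rw [h1, h2, h3]
  have key : ∀ (x : M → A) (m : M) (n : N), τ (fun n => x (φ n * m)) n = τ' x (φ n * m) := by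
    intro x m n
    rw [hμ, hfix x (φ n * m) (by rw [← mul_assoc, heφ])]
    simp only [map_mul, mul_assoc]
  have hinj' : Injective τ' := by
    intro x x' hxx
    have hE : ∀ m, e * m = m → x m = x' m := by
      intro m hm
      have : (fun n => x (φ n * m)) = (fun n => x' (φ n * m)) := by
        apply hinj
        ext n
        rw [key, key, hxx]
      have := congrFun this 1
      simpa only [← he, hm] using this
    ext m
    have h1 : x (e * m) = x' (e * m) := hE _ (by rw [← mul_assoc, hee])
    have h2 : (fun s : S => x (φ s.1 * m)) = fun s : S => x' (φ s.1 * m) := by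
      ext s
      exact hE _ (by rw [← mul_assoc, heφ])
    have h3 : Equiv.swap (x (e * m)) (μ (fun s => x (φ s.1 * m))) (x m) =
      Equiv.swap (x' (e * m)) (μ (fun s => x' (φ s.1 * m))) (x' m) := congrFun hxx m
    rw [h1, h2] at h3
    exact (Equiv.injective _) h3
  have hsurj := hM A τ' hCA hinj'
  intro y
  obtain ⟨x, hx⟩ := hsurj (fun m => if h : ∃ n, φ n = m then y h.choose else Classical.arbitrary A)
  refine ⟨fun n => x (φ n), ?_⟩
  ext n
  have h0 : τ (fun n => x (φ n)) n = τ' x (φ n) := by
    rw [hμ, hfix x (φ n) (heφ n)]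
    simp only [map_mul]
  rw [h0, hx]
  have hex : ∃ n', φ n' = φ n := ⟨n, rfl⟩
  simp only [hex, dif_pos]
  rw [hφ hex.choose_spec]

theorem not_surjunctive_of_one_sided {N : Type*} [Monoid N] (p q : N) (h1 : p * q = 1)
    (h2 : q * p ≠ 1) : ¬ Surjunctive N := by
  classical
  intro hN
  have hCA : IsCA N Bool (fun x m => x (p * m)) := by
    apply isCA_of_local {p}
    intro x x' m m' h
    exact h p (by simp)
  have hinj : Injective (fun (x : N → Bool) (m : N) => x (p * m)) := by
    intro x x' h
    ext m
    have := congrFun h (q * m)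
    simpa only [← mul_assoc, h1, one_mul] using this
  obtain ⟨x, hx⟩ := hN Bool _ hCA hinj (fun m => decide (m = 1))
  have e1 := congrFun hx 1
  have e2 := congrFun hx (q * p)
  have e3 : p * (q * p) = p * 1 := by rw [← mul_assoc, h1, one_mul, mul_one]
  simp only [e3] at e2
  simp only at e1
  rw [e2] at e1
  simp [h2] at e1

/-- Adjoining a new identity to a monoid with a one-sided unit gives a non-surjunctive monoid. -/
theorem not_surjunctive_withOne {N : Type*} [Monoid N] (p q : N) (h1 : p * q = 1)
    (h2 : q * p ≠ 1) : ¬ Surjunctive (WithOne N) := fun h =>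
  not_surjunctive_of_one_sided p q h1 h2
    (surjunctive_of_injective_mulHom (WithOne.coeMulHom : N →ₙ* WithOne N)
      WithOne.coe_injective h)

theorem withOne_mul_eq_one {N : Type*} [Mul N] {a b : WithOne N} (h : a * b = 1) :
    a = 1 ∧ b = 1 := by
  by_cases ha : a = 1
  · subst ha
    exact ⟨rfl, by simpa using h⟩
  · by_cases hb : b = 1
    · subst hb
      exact ⟨by simpa using h, rfl⟩
    · exfalso
      obtain ⟨a', rfl⟩ := WithOne.ne_one_iff_exists.1 ha
      obtain ⟨b', rfl⟩ := WithOne.ne_one_iff_exists.1 hb
      rw [← WithOne.coe_mul] at h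
      exact WithOne.coe_ne_one h

end Pool.Agent.H50.Surj
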